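import Pool.Agent.BGE.BigFin
import Pool.Agent.BGE.StaticC
import Pool.Agent.BGG.BigFin
import Pool.Agent.BGG.StaticC

/-!
MP_ab3734_pr. Dynamical last passage percolation with exponential or geometric weights: almost
surely, at no time there is a non-trivial bigeodesic.
-/

namespace Pool.Agent.Results.MP_ab3734_pr.NoExceptionalTimes

open MeasureTheory ProbabilityTheory

/-- Index set of the randomness. For a site `v` and a natural number `n`, the variable with index
`(v, n, false)` is the `n`-th waiting time of the clock at `v` and the variable with index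
`(v, n, true)` is the weight of `v` after `n` rings of this clock. -/
abbrev Noise := (ℤ × ℤ) × ℕ × Bool

/-- Exponential distribution (of any rate `r > 0`), or geometric distribution on `{0, 1, 2, ...}`
(with any parameter `q`, `0 < q < 1`; the mass of `k` is `(1 - q) q ^ k`). -/
def IsExpOrGeo (ν : Measure ℝ) : Prop :=
  (∃ r : ℝ, 0 < r ∧ ν = expMeasure r) ∨
  (∃ q : ℝ, 0 < q ∧ q < 1 ∧ ∀ k : ℕ, ν {(k : ℝ)} = ENNReal.ofReal ((1 - q) * q ^ k))

/-- The number of rings of the clock at `v` in the time interval `[0, t]`; the clock rings at the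
times `z (v, 0, false)`, `z (v, 0, false) + z (v, 1, false)`, and so on. -/
noncomputable def rings (z : Noise → ℝ) (v : ℤ × ℤ) (t : ℝ) : ℕ :=
  sInf {n : ℕ | t < ∑ i ∈ Finset.range (n + 1), z (v, i, false)}

/-- The configuration of the weights at the time `t`. -/
noncomputable def weights (z : Noise → ℝ) (t : ℝ) : ℤ × ℤ → ℝ := fun v => z (v, rings z v t, true)

/-- Bi-infinite directed nearest-neighbour paths. -/
def IsPath (γ : ℤ → ℤ × ℤ) : Prop := ∀ k, γ (k + 1) = γ k + (1, 0) ∨ γ (k + 1) = γ k + (0, 1)

/-- The weight of the segment of `γ` between the indices `a` and `b`. -/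
noncomputable def pathWeight (ω : ℤ × ℤ → ℝ) (γ : ℤ → ℤ × ℤ) (a b : ℤ) : ℝ :=
  ∑ k ∈ Finset.Icc a b, ω (γ k)

/-- `γ` is a bigeodesic: each finite segment of `γ` has the maximal weight among all the finite
directed paths with the same end points (every finite directed path is a segment of some
bi-infinite directed path `γ'`). -/
def IsBigeodesic (ω : ℤ × ℤ → ℝ) (γ : ℤ → ℤ × ℤ) : Prop :=
  IsPath γ ∧ ∀ a b : ℤ, a ≤ b → ∀ γ' : ℤ → ℤ × ℤ, IsPath γ' → ∀ a' b' : ℤ, a' ≤ b' →
    γ' a' = γ a → γ' b' = γ b → pathWeight ω γ' a' b' ≤ pathWeight ω γ a b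

/-- The path is a horizontal or vertical line. -/
def IsTrivial (γ : ℤ → ℤ × ℤ) : Prop :=
  (∀ k, γ (k + 1) = γ k + (1, 0)) ∨ (∀ k, γ (k + 1) = γ k + (0, 1))

open BGE in
theorem lev_path {γ : ℤ → ℤ × ℤ} (h : IsPath γ) (k : ℤ) : lev (γ k) = lev (γ 0) + k := by
  have step : ∀ k, lev (γ (k + 1)) = lev (γ k) + 1 := by
    intro k
    rcases h k with h | h <;> rw [h] <;> simp only [lev, Prod.fst_add, Prod.snd_add] <;> ring
  induction k using Int.induction_on with
  | zero => simp
  | succ n ih => rw [step, ih]; ring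
  | pred n ih =>
    have := step (-(n : ℤ) - 1)
    rw [sub_add_cancel, ih] at this
    linarith

open BGE in
/-- the first coordinate as a function of the level -/
def prof (γ : ℤ → ℤ × ℤ) (l : ℤ) : ℤ := (γ (l - lev (γ 0))).1

open BGE in
theorem pt_prof {γ : ℤ → ℤ × ℤ} (h : IsPath γ) (l : ℤ) : pt (prof γ) l = γ (l - lev (γ 0)) := by
  have h1 := lev_path h (l - lev (γ 0))
  simp only [pt, prof]
  ext
  · rfl
  · simp only [lev] at h1 ⊢
    linarith

open BGE in
theorem wt_prof {γ : ℤ → ℤ × ℤ} (h : IsPath γ) (ω : ℤ × ℤ → ℝ) (a b : ℤ) :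
    wt ω (prof γ) a b = pathWeight ω γ (a - lev (γ 0)) (b - lev (γ 0)) := by
  unfold wt pathWeight
  apply Finset.sum_nbij' (fun l => l - lev (γ 0)) (fun k => k + lev (γ 0))
  · intro l hl
    simp only [Finset.mem_Icc] at hl ⊢
    constructor <;> linarith [hl.1, hl.2]
  · intro l hl
    simp only [Finset.mem_Icc] at hl ⊢
    constructor <;> linarith [hl.1, hl.2]
  · intro l _; ring
  · intro l _; ring
  · intro l _
    rw [pt_prof h]

open BGE in
theorem prof_step {γ : ℤ → ℤ × ℤ} (h : IsPath γ) (l : ℤ) :
    prof γ (l + 1) = prof γ l ∨ prof γ (l + 1) = prof γ l + 1 := by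
  have e : l + 1 - lev (γ 0) = (l - lev (γ 0)) + 1 := by ring
  unfold prof
  rcases h (l - lev (γ 0)) with h | h
  · right; rw [e, h]; simp
  · left; rw [e, h]; simp

/-- a path given on an interval of levels extends to a bi-infinite path -/
theorem extend {x : ℤ → ℤ} {a b : ℤ} (hab : a ≤ b) (hx : BGE.UR x a b) :
    ∃ γ : ℤ → ℤ × ℤ, IsPath γ ∧ ∀ l, a ≤ l → l ≤ b → γ l = BGE.pt x l := by
  refine ⟨fun l => BGE.pt (fun l => x (max a (min l b))) l, ?_, ?_⟩
  · intro l
    simp only [BGE.pt]
    have hc : x (max a (min (l + 1) b)) = x (max a (min l b)) ∨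
        x (max a (min (l + 1) b)) = x (max a (min l b)) + 1 := by
      by_cases h1 : l < a
      · left
        congr 1
        rw [max_eq_left (by rw [min_le_iff]; left; linarith),
          max_eq_left (by rw [min_le_iff]; left; linarith)]
      · by_cases h2 : l < b
        · push Not at h1
          rw [min_eq_left (by linarith), min_eq_left (by linarith), max_eq_right (by linarith),
            max_eq_right h1]
          exact hx l h1 h2
        · left
          push Not at h1 h2
          rw [min_eq_right (by linarith), min_eq_right h2]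
    rcases hc with hc | hc
    · right
      ext
      · simp [hc]
      · simp [hc]; ring
    · left
      ext
      · simp [hc]
      · simp [hc]
  · intro l h1 h2
    simp only [BGE.pt]
    rw [min_eq_left h2, max_eq_right h1]

open BGE in
theorem big_of {ω : ℤ × ℤ → ℝ} {γ : ℤ → ℤ × ℤ} (h : IsBigeodesic ω γ) : BiG ω (prof γ) := by
  refine ⟨prof_step h.1, ?_⟩
  intro a b hab
  have hur : UR (prof γ) a b := fun l _ _ => prof_step h.1 l
  apply le_antisymm (wt_le_T hur hab)
  have hle : pt (prof γ) a ≤ pt (prof γ) b := pt_le_pt hur le_rfl hab le_rfl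
  obtain ⟨x, hx, hx1, hx2, hx3⟩ := exists_path ω hle
  have la : lev (pt (prof γ) a) = a := by simp [lev, pt]
  have lb : lev (pt (prof γ) b) = b := by simp [lev, pt]
  rw [la, lb] at hx hx3
  rw [la] at hx1
  rw [lb] at hx2
  obtain ⟨γ', hγ', hγ2⟩ := extend hab hx
  have key := h.2 (a - lev (γ 0)) (b - lev (γ 0)) (by linarith) γ' hγ' a b hab
    (by rw [hγ2 a le_rfl hab, hx1, pt_prof h.1]) (by rw [hγ2 b hab le_rfl, hx2, pt_prof h.1])
  rw [← wt_prof h.1] at key
  refine le_trans (le_of_eq ?_) key
  rw [← hx3]
  unfold wt pathWeight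
  apply Finset.sum_congr rfl
  intro l hl
  simp only [Finset.mem_Icc] at hl
  rw [hγ2 l hl.1 hl.2]

theorem triv_of {γ : ℤ → ℤ × ℤ} (hγ : IsPath γ)
    (h : (∀ l, prof γ (l + 1) = prof γ l) ∨ (∀ l, prof γ (l + 1) = prof γ l + 1)) :
    IsTrivial γ := by
  have hs : ∀ k, prof γ (k + BGE.lev (γ 0)) = (γ k).1 := by
    intro k; simp [prof]
  rcases h with h | h
  · right
    intro k
    have e := h (k + BGE.lev (γ 0))
    rw [show k + BGE.lev (γ 0) + 1 = (k + 1) + BGE.lev (γ 0) by ring, hs, hs] at e
    rcases hγ k with h' | h'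
    · rw [h'] at e; simp at e
    · exact h'
  · left
    intro k
    have e := h (k + BGE.lev (γ 0))
    rw [show k + BGE.lev (γ 0) + 1 = (k + 1) + BGE.lev (γ 0) by ring, hs, hs] at e
    rcases hγ k with h' | h'
    · exact h'
    · rw [h'] at e; simp at e

/-- bigeodesics do not change under increasing affine maps of the weights -/
theorem big_affine {ω : ℤ × ℤ → ℝ} {γ : ℤ → ℤ × ℤ} (h : IsBigeodesic ω γ) {s : ℝ} (hs : 0 ≤ s)
    (d : ℝ) : IsBigeodesic (fun v => s * ω v + d) γ := by
  refine ⟨h.1, ?_⟩
  intro a b hab γ' hγ' a' b' hab' ha hb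
  have key := h.2 a b hab γ' hγ' a' b' hab' ha hb
  have e : b' - a' = b - a := by
    have h1 := lev_path h.1 a
    have h2 := lev_path h.1 b
    have h3 := lev_path hγ' a'
    have h4 := lev_path hγ' b'
    rw [ha, h1] at h3
    rw [hb, h2] at h4
    linarith
  have hsum : ∀ (γ0 : ℤ → ℤ × ℤ) (a0 b0 : ℤ), pathWeight (fun v => s * ω v + d) γ0 a0 b0 =
      s * pathWeight ω γ0 a0 b0 + d * ((b0 + 1 - a0).toNat : ℝ) := by
    intro γ0 a0 b0
    unfold pathWeight
    rw [Finset.sum_add_distrib, ← Finset.mul_sum, Finset.sum_const, Int.card_Icc, nsmul_eq_mul]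
    ring
  rw [hsum, hsum, show b' + 1 - a' = b + 1 - a by linarith]
  have := mul_le_mul_of_nonneg_left key hs
  linarith

/-- a probability measure with the masses of the geometric law -/
theorem geo_sum {ν : Measure ℝ} [IsProbabilityMeasure ν] {q : ℝ} (h0 : 0 < q) (h1 : q < 1)
    (h : ∀ k : ℕ, ν {(k : ℝ)} = ENNReal.ofReal ((1 - q) * q ^ k)) :
    ν = Measure.sum (fun k : ℕ => ENNReal.ofReal ((1 - q) * q ^ k) • Measure.dirac (k : ℝ)) := by
  have htot : ∑' k : ℕ, ENNReal.ofReal ((1 - q) * q ^ k) = 1 := by
    rw [← ENNReal.ofReal_tsum_of_nonneg]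
    · rw [tsum_mul_left, tsum_geometric_of_lt_one h0.le h1, mul_inv_cancel₀ (by linarith),
        ENNReal.ofReal_one]
    · intro k
      have : 0 < 1 - q := by linarith
      positivity
    · exact (summable_geometric_of_lt_one h0.le h1).mul_left _
  have hN : MeasurableSet (Set.range (fun k : ℕ => (k : ℝ))) :=
    (Set.countable_range _).measurableSet
  have hU : ν (Set.range (fun k : ℕ => (k : ℝ))) = 1 := by
    have : Set.range (fun k : ℕ => (k : ℝ)) = ⋃ k : ℕ, {(k : ℝ)} := by
      ext x; simp [eq_comm]
    rw [this, measure_iUnion]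
    · simp_rw [h]; exact htot
    · intro i j hij
      simpa [Function.onFun] using hij
    · intro i; exact measurableSet_singleton _
  have hc : ν (Set.range (fun k : ℕ => (k : ℝ)))ᶜ = 0 := by
    rw [prob_compl_eq_zero_iff hN]; exact hU
  ext E hE
  rw [Measure.sum_apply _ hE]
  have e1 : ν E = ν (E ∩ Set.range (fun k : ℕ => (k : ℝ))) := by
    apply le_antisymm
    · calc ν E ≤ ν ((E ∩ Set.range (fun k : ℕ => (k : ℝ))) ∪
            (Set.range (fun k : ℕ => (k : ℝ)))ᶜ) := by
            apply measure_mono
            intro x hx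
            by_cases hx2 : x ∈ Set.range (fun k : ℕ => (k : ℝ))
            · exact Or.inl ⟨hx, hx2⟩
            · exact Or.inr hx2
        _ ≤ _ := measure_union_le _ _
        _ = _ := by rw [hc, add_zero]
    · exact measure_mono Set.inter_subset_left
  have e2 : E ∩ Set.range (fun k : ℕ => (k : ℝ)) = ⋃ k : ℕ, (E ∩ {(k : ℝ)}) := by
    ext x
    simp only [Set.mem_inter_iff, Set.mem_range, Set.mem_iUnion, Set.mem_singleton_iff]
    constructor
    · rintro ⟨hx, k, hk⟩; exact ⟨k, hx, hk.symm⟩
    · rintro ⟨k, hx, hk⟩; exact ⟨hx, k, hk.symm⟩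
  rw [e1, e2, measure_iUnion]
  · apply tsum_congr
    intro k
    rw [Measure.smul_apply, Measure.dirac_apply' _ hE, smul_eq_mul]
    by_cases hk : (k : ℝ) ∈ E
    · rw [Set.inter_eq_right.mpr (by simpa using hk), h, Set.indicator_of_mem hk]
      simp
    · rw [Set.indicator_of_notMem hk, show E ∩ {(k : ℝ)} = ∅ by
        ext x; simp only [Set.mem_inter_iff, Set.mem_singleton_iff, Set.mem_empty_iff_false,
          iff_false, not_and]; rintro hx rfl; exact hk hx]
      simp
  · intro i j hij
    rw [Function.onFun, Set.disjoint_left]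
    rintro x ⟨_, hx⟩ ⟨_, hx2⟩
    simp only [Set.mem_singleton_iff] at hx hx2
    apply hij
    exact_mod_cast hx.symm.trans hx2
  · intro i
    exact hE.inter (measurableSet_singleton _)

/-- **Theorem.** Consider dynamical last passage percolation on `ℤ²` with exponential weights or
with geometric weights and with independent rate-one Poisson clocks: when the clock of a site
rings, its weight is replaced by a fresh independent sample. Almost surely, for all times `t ≥ 0`
simultaneously, every bigeodesic of the configuration at the time `t` is a horizontal or vertical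
line. In particular there are no exceptional times at which the origin lies on a non-trivial
bigeodesic. -/
theorem result {Ω : Type*} [MeasurableSpace Ω] (P : Measure Ω) [IsProbabilityMeasure P]
    (Z : Noise → Ω → ℝ) (hZ : ∀ d, Measurable (Z d)) (hind : iIndepFun Z P)
    (hclock : ∀ (v : ℤ × ℤ) (n : ℕ), P.map (Z (v, n, false)) = expMeasure 1)
    (ν : Measure ℝ) (hν : IsExpOrGeo ν)
    (hweight : ∀ (v : ℤ × ℤ) (n : ℕ), P.map (Z (v, n, true)) = ν) :
    ∀ᵐ o ∂P, ∀ t : ℝ, 0 ≤ t → ∀ γ : ℤ → ℤ × ℤ,
      IsBigeodesic (weights (fun d => Z d o) t) γ → IsTrivial γ := by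
  rcases hν with ⟨r, hr, rfl⟩ | ⟨q, h0, h1, hq⟩
  · -- exponential weights
    set f : Noise → ℝ → ℝ := fun d x => if d.2.2 = true then r * x else x with hf
    have hfm : ∀ d, Measurable (f d) := by
      intro d
      simp only [hf]
      split_ifs <;> fun_prop
    have hind' : iIndepFun (fun d o => f d (Z d o)) P := hind.comp f hfm
    have hlaw : ∀ d, P.map (fun o => f d (Z d o)) = BGE.E1 := by
      rintro ⟨v, n, b⟩
      have hc : (fun o => f (v, n, b) (Z (v, n, b) o)) = f (v, n, b) ∘ Z (v, n, b) := rfl
      rw [hc, ← Measure.map_map (hfm _) (hZ _)]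
      cases b
      · rw [hclock]
        simp only [hf, Bool.false_eq_true, if_false]
        exact Measure.map_id
      · rw [hweight]
        simp only [hf, if_true]
        exact BGE.map_exp_mul hr
    have hmap : P.map (fun o d => f d (Z d o)) = BGE.PI Noise := by
      refine ((iIndepFun_iff_map_fun_eq_infinitePi_map
        (fun d => (hfm d).comp (hZ d))).1 hind').trans ?_
      unfold BGE.PI
      congr 1
      ext1 d
      exact hlaw d
    have hmain := BGE.no_big BGE.static_all
    rw [show (BGE.PI BGE.DI) = P.map (fun o d => f d (Z d o)) from hmap.symm] at hmain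
    have h1 := ae_of_ae_map
      (measurable_pi_lambda _ fun d => (hfm d).comp (hZ d)).aemeasurable hmain
    filter_upwards [h1] with o ho t ht γ hγ
    have e : BGE.ct (fun d => f d (Z d o)) t = fun v => r * weights (fun d => Z d o) t v + 0 := by
      funext v
      simp only [BGE.ct, BGE.cnt, weights, rings, hf, Bool.false_eq_true, if_false, if_true,
        add_zero]
    have hb : BGE.BiG (BGE.ct (fun d => f d (Z d o)) t) (prof γ) := by
      rw [e]
      exact big_of (big_affine hγ hr.le 0)
    exact triv_of hγ.1 (ho t ht (prof γ) hb)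
  · -- geometric weights
    let _ : BGG.GeoPar := ⟨q, h0, h1⟩
    have : IsProbabilityMeasure ν := by
      rw [← hweight (0, 0) 0]
      exact Measure.isProbabilityMeasure_map (hZ _).aemeasurable
    set f : Noise → ℝ → ℝ := fun d x => if d.2.2 = true then BGG.gs * x + BGG.gd else x with hf
    have hfm : ∀ d, Measurable (f d) := by
      intro d
      simp only [hf]
      split_ifs <;> fun_prop
    have hind' : iIndepFun (fun d o => f d (Z d o)) P := hind.comp f hfm
    have hlaw : ∀ d, P.map (fun o => f d (Z d o)) = BGG.dlaw d := by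
      rintro ⟨v, n, b⟩
      have hc : (fun o => f (v, n, b) (Z (v, n, b) o)) = f (v, n, b) ∘ Z (v, n, b) := rfl
      rw [hc, ← Measure.map_map (hfm _) (hZ _)]
      cases b
      · rw [hclock]
        simp only [hf, BGG.dlaw, Bool.false_eq_true, if_false]
        exact Measure.map_id
      · rw [hweight]
        simp only [hf, BGG.dlaw, if_true]
        have e1 : BGG.EG = Measure.sum (fun k : ℕ => ENNReal.ofReal ((1 - q) * q ^ k) •
            Measure.dirac (BGG.gs * k + BGG.gd)) := BGG.geoM_eq h0 h1
        rw [e1, geo_sum h0 h1 hq, Measure.map_sum (by fun_prop)]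
        congr 1
        funext k
        have hm : Measurable (fun x : ℝ => BGG.gs * x + BGG.gd) := by fun_prop
        rw [Measure.map_smul, Measure.map_dirac' hm]
    have hmap : P.map (fun o d => f d (Z d o)) = BGG.PD := by
      refine ((iIndepFun_iff_map_fun_eq_infinitePi_map
        (fun d => (hfm d).comp (hZ d))).1 hind').trans ?_
      unfold BGG.PD
      congr 1
      ext1 d
      exact hlaw d
    have hmain := BGG.no_big BGG.static_all
    rw [← hmap] at hmain
    have h2 := ae_of_ae_map
      (measurable_pi_lambda _ fun d => (hfm d).comp (hZ d)).aemeasurable hmain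
    filter_upwards [h2] with o ho t ht γ hγ
    have e : BGE.ct (fun d => f d (Z d o)) t =
        fun v => BGG.gs * weights (fun d => Z d o) t v + BGG.gd := by
      funext v
      simp only [BGE.ct, BGE.cnt, weights, rings, hf, Bool.false_eq_true, if_false, if_true]
    have hb : BGE.BiG (BGE.ct (fun d => f d (Z d o)) t) (prof γ) := by
      rw [e]
      exact big_of (big_affine hγ BGG.gs_pos.le BGG.gd)
    exact triv_of hγ.1 (ho t ht (prof γ) hb)

end Pool.Agent.Results.MP_ab3734_pr.NoExceptionalTimes
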